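import Pool.Agent.Y114.OP.Stm3
import Pool.Agent.Y960.RM.TH

/-!
# A Lie algebra of endomorphisms of a direct sum, stable under a conjugation
-/

set_option autoImplicit false
set_option linter.unusedSectionVars false

namespace Pool.Agent.Y833.OP

open Module Pool.Agent.TH118.SG Pool.Agent.Y114.RM
open Pool.Agent.Y114.OP (S_MIX)
open Pool.Agent.Y960.RM (eval_gen ad)

section

variable {E : Type} [AddCommGroup E] [Module ℂ E] [FiniteDimensional ℂ E]

/-- A nonzero generalized eigenvector in a stable subspace gives an eigenvector in it. -/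
theorem eig {g : End ℂ E} {W : Submodule ℂ E} (hW : ∀ x ∈ W, g x ∈ W) {b : ℂ} :
    ∀ (n : ℕ) (y : E), y ∈ W → y ≠ 0 → ((g - algebraMap ℂ (End ℂ E) b) ^ n) y = 0 →
      ∃ x, x ≠ 0 ∧ x ∈ W ∧ g x = b • x := by
  intro n
  induction n with
  | zero =>
    intro y _ h0 hy
    rw [pow_zero, Module.End.one_apply] at hy
    exact absurd hy h0
  | succ n ih =>
    intro y hyW h0 hy
    have hz : (g - algebraMap ℂ (End ℂ E) b) y = g y - b • y := rfl
    by_cases h1 : (g - algebraMap ℂ (End ℂ E) b) y = 0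
    · rw [hz] at h1
      exact ⟨y, h0, hyW, sub_eq_zero.1 h1⟩
    · refine ih _ ?_ h1 ?_
      · rw [hz]
        exact W.sub_mem (hW y hyW) (W.smul_mem _ hyW)
      · rw [← Module.End.mul_apply, ← pow_succ]
        exact hy

/-- An endomorphism which is not zero on a stable subspace is not zero on one of the generalized
eigenspaces in it. -/
theorem gen_on {g : End ℂ E} {W : Submodule ℂ E} (hW : ∀ x ∈ W, g x ∈ W) {X : End ℂ E}
    (h : ∃ x ∈ W, X x ≠ 0) : ∃ a, ∃ x ∈ W, x ∈ g.maxGenEigenspace a ∧ X x ≠ 0 := by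
  by_contra hcon
  push Not at hcon
  obtain ⟨x, hx, hX⟩ := h
  apply hX
  have h1 : W = ⨆ c, W ⊓ g.maxGenEigenspace c :=
    Submodule.eq_iSup_inf_genEigenspace ⊤ hW (Module.End.iSup_maxGenEigenspace_eq_top _)
  rw [h1] at hx
  induction hx using Submodule.iSup_induction' with
  | mem c x hx => exact hcon c x hx.1 hx.2
  | zero => rw [map_zero]
  | add x y _ _ hx hy =>
    by_cases h2 : X x = 0
    · by_cases h3 : X y = 0
      · rw [map_add, h2, h3, add_zero]
      · exact absurd (hy h3) h3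
    · exact absurd (hx h2) h2

theorem part {g g' X : End ℂ E} (hg : g' * g = 1) {W : Submodule ℂ E} (hW : ∀ x ∈ W, g x ∈ W)
    (hXW : ∀ x ∈ W, X x ∈ W) {c : ℂ} (hX : X ∈ (AdE g g').maxGenEigenspace c)
    (h : ∃ x ∈ W, X x ≠ 0) :
    ∃ a, (∃ x, x ≠ 0 ∧ x ∈ W ∧ g x = a • x) ∧ ∃ x, x ≠ 0 ∧ x ∈ W ∧ g x = (c * a) • x := by
  obtain ⟨a, x, hx, hxa, h0⟩ := gen_on hW h
  obtain ⟨m, hm⟩ := mem_gen.1 hX
  obtain ⟨n, hn⟩ := mem_gen.1 hxa
  refine ⟨a, eig hW n x hx (fun h1 => h0 (by rw [h1, map_zero])) hn,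
    eig hW (m + n) (X x) (hXW x hx) h0 (eval_gen hg (m + n) m n X x le_rfl hm hn)⟩

theorem mul_e {g g' e : End ℂ E} (he : e * g' = g' * e) {c : ℂ} (X : End ℂ E) : ∀ n : ℕ,
    ((AdE g g' - algebraMap ℂ (End ℂ (End ℂ E)) c) ^ n) (X * e) =
      ((AdE g g' - algebraMap ℂ (End ℂ (End ℂ E)) c) ^ n) X * e := by
  intro n
  induction n with
  | zero => rfl
  | succ n ih =>
    rw [pow_succ', Module.End.mul_apply, Module.End.mul_apply, ih]
    set Z := ((AdE g g' - algebraMap ℂ (End ℂ (End ℂ E)) c) ^ n) X with hZ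
    have h1 : ∀ Z : End ℂ E, (AdE g g' - algebraMap ℂ (End ℂ (End ℂ E)) c) Z =
      g * (Z * g') - c • Z := fun Z => rfl
    rw [h1, h1, sub_mul, smul_mul_assoc, mul_assoc Z e g', he]
    simp only [mul_assoc]

end

theorem mix : S_MIX := by
  intro E _ _ _ g g' e L hgg' hg'g hee hge hLie hAd hLe hQ hC
  have heg' : e * g' = g' * e := by
    calc e * g' = (g' * g) * (e * g') := by rw [hg'g, one_mul]
      _ = g' * (g * e) * g' := by simp only [mul_assoc]
      _ = g' * e * (g * g') := by rw [hge]; simp only [mul_assoc]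
      _ = g' * e := by rw [hgg', mul_one]
  have hinj : ∀ (x : E) (a : ℂ), x ≠ 0 → g x = a • x → a ≠ 0 := by
    rintro x a hx hgx rfl
    apply hx
    have h1 : g' (g x) = x := by
      rw [← Module.End.mul_apply, hg'g, Module.End.one_apply]
    rw [← h1, hgx, zero_smul, map_zero]
  have W1 : ∀ x, x ∈ LinearMap.ker (e - 1) ↔ e x = x := by
    intro x
    rw [LinearMap.mem_ker, LinearMap.sub_apply, Module.End.one_apply, sub_eq_zero]
  have ege : ∀ x, e (g x) = g (e x) := by
    intro x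
    rw [← Module.End.mul_apply, ← hge, Module.End.mul_apply]
  have eee : ∀ x, e (e x) = e x := by
    intro x
    rw [← Module.End.mul_apply, hee]
  -- the alternative
  have key : ∀ X ∈ L, ∀ c : ℂ, X ∈ (AdE g g').maxGenEigenspace c →
      (∀ (θ : Additive ℂˣ →+ ℂ) (t : End ℂ E), IsOp θ g t → t * (X * e) = X * e * t) ∨
      X * e = 0 ∨ X * e = X := by
    intro X hX c hc
    by_cases h1 : X * e = 0
    · exact Or.inr (Or.inl h1)
    by_cases h2 : X * e = X
    · exact Or.inr (Or.inr h2)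
    left
    have eX : ∀ x, e (X x) = X (e x) := by
      intro x
      rw [← Module.End.mul_apply, ← hLe X hX, Module.End.mul_apply]
    have k1 : ∃ x ∈ LinearMap.ker (e - 1), X x ≠ 0 := by
      by_contra hcon
      push Not at hcon
      exact h1 (LinearMap.ext fun x => hcon (e x) ((W1 _).2 (eee x)))
    have k2 : ∃ x ∈ LinearMap.ker e, X x ≠ 0 := by
      by_contra hcon
      push Not at hcon
      refine h2 (LinearMap.ext fun x => ?_)
      have h3 := hcon (x - e x) (by rw [LinearMap.mem_ker, map_sub, eee, sub_self])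
      rw [map_sub, sub_eq_zero] at h3
      exact h3.symm
    obtain ⟨a, ⟨x1, n1, m1, g1⟩, ⟨x2, n2, m2, g2⟩⟩ := part hg'g
      (fun x hx => (W1 _).2 (by rw [ege, (W1 x).1 hx]))
      (fun x hx => (W1 _).2 (by rw [eX, (W1 x).1 hx])) hc k1
    obtain ⟨b, ⟨x3, n3, m3, g3⟩, ⟨x4, n4, m4, g4⟩⟩ := part hg'g
      (fun x hx => LinearMap.mem_ker.2 (by rw [ege, LinearMap.mem_ker.1 hx, map_zero]))
      (fun x hx => LinearMap.mem_ker.2 (by rw [eX, LinearMap.mem_ker.1 hx, map_zero])) hc k2
    obtain ⟨m, hm, hcm⟩ := hQ (c * a) a (c * b) b ⟨x2, n2, (W1 _).1 m2, g2⟩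
      ⟨x1, n1, (W1 _).1 m1, g1⟩ ⟨x4, n4, LinearMap.mem_ker.1 m4, g4⟩
      ⟨x3, n3, LinearMap.mem_ker.1 m3, g3⟩ (by ring)
    have ha : a ≠ 0 := hinj x1 a n1 g1
    have hcm1 : c ^ m = 1 := by
      rw [mul_pow] at hcm
      exact mul_right_cancel₀ (pow_ne_zero m ha) (by rw [hcm, one_mul])
    intro θ t ht
    have h3 := ad ℂ E θ g g' t hgg' hg'g ht c (X * e) (by
      obtain ⟨n, hn⟩ := mem_gen.1 hc
      exact mem_gen.2 ⟨n, by rw [mul_e heg', hn, zero_mul]⟩)
    have h4 : ext0 θ c = 0 := by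
      have h5 := ext0_pow θ c hm
      rw [hcm1, ext0_one] at h5
      exact (mul_eq_zero.1 h5.symm).resolve_left (Nat.cast_ne_zero.2 hm.ne')
    rw [h4, zero_smul, adE_apply, sub_eq_zero] at h3
    exact h3
  -- the two components
  have step : ∀ X ∈ L, ∀ Y ∈ L, ∀ c d : ℂ, X ∈ (AdE g g').maxGenEigenspace c →
      Y ∈ (AdE g g').maxGenEigenspace d → (X * Y - Y * X) * e ∈ L := by
    intro X hX Y hY c d hc hd
    have hYe := hLe Y hY
    have hXe := hLe X hX
    have e1 : (X * Y - Y * X) * e = (X * e) * Y - Y * (X * e) := by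
      rw [sub_mul, mul_assoc X Y e, hYe, mul_assoc Y X e, mul_assoc X e Y]
    have e2 : (X * Y - Y * X) * e = X * (Y * e) - (Y * e) * X := by
      rw [sub_mul, mul_assoc X Y e, mul_assoc Y X e, hXe, mul_assoc Y e X]
    rcases key X hX c hc with h1 | h1 | h1
    · rcases key Y hY d hd with h2 | h2 | h2
      · have h3 := hC X hX Y hY h1 h2
        have h4 : (X * Y - Y * X) * e = X * e * (Y * e) - Y * e * (X * e) := by
          rw [sub_mul]
          congr 1
          · calc X * Y * e = X * (Y * e) := mul_assoc _ _ _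
              _ = X * (Y * (e * e)) := by rw [hee]
              _ = X * ((Y * e) * e) := by rw [mul_assoc Y e e]
              _ = X * ((e * Y) * e) := by rw [hYe]
              _ = X * e * (Y * e) := by simp only [mul_assoc]
          · calc Y * X * e = Y * (X * e) := mul_assoc _ _ _
              _ = Y * (X * (e * e)) := by rw [hee]
              _ = Y * ((X * e) * e) := by rw [mul_assoc X e e]
              _ = Y * ((e * X) * e) := by rw [hXe]
              _ = Y * e * (X * e) := by simp only [mul_assoc]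
        rw [h4, h3, sub_self]
        exact L.zero_mem
      · rw [e2, h2, mul_zero, zero_mul, sub_zero]
        exact L.zero_mem
      · rw [e2, h2]
        exact hLie X hX Y hY
    · rw [e1, h1, mul_zero, zero_mul, sub_zero]
      exact L.zero_mem
    · rw [e1, h1]
      exact hLie X hX Y hY
  have hL : L = ⨆ c, L ⊓ (AdE g g').maxGenEigenspace c :=
    Submodule.eq_iSup_inf_genEigenspace ⊤ hAd (Module.End.iSup_maxGenEigenspace_eq_top _)
  have step2 : ∀ X ∈ L, ∀ c : ℂ, X ∈ (AdE g g').maxGenEigenspace c → ∀ Y ∈ L,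
      (X * Y - Y * X) * e ∈ L := by
    intro X hX c hc Y hY
    rw [hL] at hY
    induction hY using Submodule.iSup_induction' with
    | mem d Y hY => exact step X hX Y hY.1 c d hc hY.2
    | zero =>
      rw [mul_zero, zero_mul, sub_zero, zero_mul]
      exact L.zero_mem
    | add Y Y' _ _ h1 h2 =>
      have e1 : (X * (Y + Y') - (Y + Y') * X) * e =
          (X * Y - Y * X) * e + (X * Y' - Y' * X) * e := by
        noncomm_ring
      rw [e1]
      exact L.add_mem h1 h2
  intro X hX Y hY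
  rw [hL] at hX
  induction hX using Submodule.iSup_induction' with
  | mem c X hX => exact step2 X hX.1 c hX.2 Y hY
  | zero =>
    rw [mul_zero, zero_mul, sub_zero, zero_mul]
    exact L.zero_mem
  | add X X' _ _ h1 h2 =>
    have e1 : ((X + X') * Y - Y * (X + X')) * e =
        (X * Y - Y * X) * e + (X' * Y - Y * X') * e := by
      noncomm_ring
    rw [e1]
    exact L.add_mem h1 h2

end Pool.Agent.Y833.OP
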